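import Pool.Agent.TH130.ResFin

/-!
MP_55d974_ag, Q1: negative answer. There are a henselian discrete valuation ring `A` with residue
field of characteristic `2` (the strict henselisation of `F₂[[t]]`) and an integral smooth
projective curve `X` over `A` (relative dimension `d = 1`; it is the closure of `y² + y = x³`) such
that for every `r ≥ 1` the restriction map from `CH_1(X)/2^r = H¹(X, O_X^*)/2^r` to the inverse limit
modulo `2^r` is not surjective, in both readings of the target: `(lim_n H¹(X_n, O^*))/2^r` and
`lim_n (H¹(X_n, O^*)/2^r)`.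
-/

set_option autoImplicit false

open CategoryTheory AlgebraicGeometry TopologicalSpace Pool.Agent.H835R5 Pool.Agent.TH130

namespace Pool.Agent.Results.MP_55d974_ag.ResNotSurj

theorem result :
    ∃ (A : Type) (_ : CommRing A) (_ : IsDomain A) (_ : IsDiscreteValuationRing A)
      (_ : HenselianLocalRing A) (π : A) (X : Scheme.{0}) (f : X ⟶ Spec (.of A)),
      Irreducible π ∧ CharP A 2 ∧ CharP (IsLocalRing.ResidueField A) 2 ∧ IsIntegral X ∧
        SmoothOfRelativeDimension 1 f ∧ IsProjOver f ∧
        ∀ r : ℕ, 1 ≤ r → ¬ SurjModLim f π (2 ^ r) ∧ ¬ SurjLimMod f π (2 ^ r) :=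
  main

end Pool.Agent.Results.MP_55d974_ag.ResNotSurj
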